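import Pool.Agent.Helper814_FO.FO5

/-!
# Virtually abelian groups: every Cayley metric has a finite orbit in the horofunction boundary

(MP_3614fc_al, Q1 for virtually abelian groups)
-/

set_option autoImplicit false

open Filter Topology

namespace Pool.Agent.Results.MP_3614fc_al.VirtuallyAbelian

/-- For every infinite group `G` with an abelian subgroup of finite index and every finite symmetric
generating set `S`, the metric-functional boundary of the word metric `d_S` contains a finite
`G`-orbit: there is a pointwise limit `f` of functions `b_x` with `|x|_S` tending to infinity whose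
orbit under `(g · f)(y) = f (g⁻¹ y) - f (g⁻¹)` is finite. -/
theorem result :
    ∀ (G : Type) [Group G], Infinite G →
      (∃ A : Subgroup G, A.FiniteIndex ∧ ∀ a ∈ A, ∀ b ∈ A, a * b = b * a) →
      ∀ S : Finset G, (∀ s ∈ S, s⁻¹ ∈ S) → Subgroup.closure (S : Set G) = ⊤ →
        ∃ f : G → ℝ,
          (∃ x : ℕ → G,
            Tendsto (fun n : ℕ => ((sInf {m : ℕ | ∃ l : List G, l.length = m ∧
                (∀ s ∈ l, s ∈ S) ∧ l.prod = (x n)⁻¹} : ℕ) : ℝ)) atTop atTop ∧
            ∀ y : G, Tendsto (fun n : ℕ =>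
                ((sInf {m : ℕ | ∃ l : List G, l.length = m ∧
                  (∀ s ∈ l, s ∈ S) ∧ l.prod = (x n)⁻¹ * y} : ℕ) : ℝ) -
                ((sInf {m : ℕ | ∃ l : List G, l.length = m ∧
                  (∀ s ∈ l, s ∈ S) ∧ l.prod = (x n)⁻¹} : ℕ) : ℝ))
              atTop (nhds (f y))) ∧
          (Set.range (fun g : G => fun y : G => f (g⁻¹ * y) - f g⁻¹)).Finite := by
  intro G _ hinf hA S hsym hS
  obtain ⟨A, hA1, hA2⟩ := hA
  have : Infinite G := hinf
  have hwl : ∀ g : G, sInf {m : ℕ | ∃ l : List G, l.length = m ∧ (∀ s ∈ l, s ∈ S) ∧ l.prod = g} =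
      Pool.Agent.H205R3.Horo.wl S g := by
    intro g
    unfold Pool.Agent.H205R3.Horo.wl
    congr 1
    ext m
    constructor
    · rintro ⟨l, h1, h2, h3⟩
      exact ⟨l, h1, fun s hs => Or.inl (h2 s hs), h3⟩
    · rintro ⟨l, h1, h2, h3⟩
      refine ⟨l, h1, fun s hs => ?_, h3⟩
      rcases h2 s hs with h | h
      · exact h
      · have := hsym _ h
        rwa [inv_inv] at this
  simp only [hwl]
  exact Pool.Agent.Helper814_FO.main A hA1 hA2 S hS

end Pool.Agent.Results.MP_3614fc_al.VirtuallyAbelian
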